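import Pool.Agent.Helper935.MT.Trans

open MeasureTheory
open scoped ENNReal

namespace Pool.Agent.Results.MP_33127d_an.MTermOrder

/-- The torus `T^d = (ℝ / 2πℤ)^d`. -/
abbrev Tor (d : ℕ) := Fin d → AddCircle (2 * Real.pi)

/-- Lebesgue measure on the torus, normalised to total mass one. -/
noncomputable def normMeas (d : ℕ) : Measure (Tor d) :=
  Measure.pi fun _ => @AddCircle.haarAddCircle (2 * Real.pi) ⟨Real.two_pi_pos⟩

/-- The exponential `e^{i(k,x)}`. -/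
noncomputable def expo {d : ℕ} (k : Fin d → ℤ) (x : Tor d) : ℂ := ∏ j, fourier (k j) (x j)

/-- The Fourier coefficient of `f` at the frequency `k`. -/
noncomputable def coeff {d : ℕ} (f : Tor d → ℂ) (k : Fin d → ℤ) : ℂ :=
  ∫ x, f x * expo (-k) x ∂(normMeas d)

/-- The dyadic block `ρ(s)`: all `k` with `⌊2^(s_j - 1)⌋ ≤ |k_j| < 2^(s_j)` for every `j`. -/
noncomputable def rho {d : ℕ} (s : Fin d → ℕ) : Finset (Fin d → ℤ) :=
  Fintype.piFinset fun j =>
    (Finset.Ioo (-((2 : ℤ) ^ (s j))) ((2 : ℤ) ^ (s j))).filter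
      fun k => ⌊(2 : ℝ) ^ ((s j : ℝ) - 1)⌋ ≤ |k|

/-- The dyadic piece `δ_s(f)`. -/
noncomputable def deltaPiece {d : ℕ} (s : Fin d → ℕ) (f : Tor d → ℂ) (x : Tor d) : ℂ :=
  ∑ k ∈ rho s, coeff f k * expo k x

/-- `f_l`, the sum of the dyadic pieces `δ_s(f)` over all `s` with `|s|_1 = l`. -/
noncomputable def layerPiece {d : ℕ} (l : ℕ) (f : Tor d → ℂ) (x : Tor d) : ℂ :=
  ∑ s ∈ Finset.piAntidiag Finset.univ l, deltaPiece s f x

/-- The class `W_1^{a,b}`. -/
def classW (d : ℕ) (a b : ℝ) : Set (Tor d → ℂ) :=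
  {f | Integrable f (normMeas d) ∧ ∀ l : ℕ,
    ∫ x, ‖layerPiece l f x‖ ∂(normMeas d) ≤
      (2 : ℝ) ^ (-(a * l)) * (max (l : ℝ) 1) ^ (((d : ℝ) - 1) * b)}

/-- Best `m`-term trigonometric approximation of `f` in `L_p`. -/
noncomputable def sigma {d : ℕ} (m : ℕ) (p : ℝ) (f : Tor d → ℂ) : ℝ≥0∞ :=
  ⨅ (K : Finset (Fin d → ℤ)) (_ : K.card ≤ m) (c : (Fin d → ℤ) → ℂ),
    eLpNorm (fun x => f x - ∑ k ∈ K, c k * expo k x) (ENNReal.ofReal p) (normMeas d)

/-- Best `m`-term trigonometric approximation of the class `W_1^{a,b}` in `L_p`. -/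
noncomputable def sigmaClass (d m : ℕ) (p a b : ℝ) : ℝ≥0∞ := ⨆ f ∈ classW d a b, sigma m p f

/-- The order function. -/
noncomputable def phi (d : ℕ) (p a b : ℝ) (m : ℕ) : ℝ :=
  if p ≤ 2 then
    if 2 * (1 - 1 / p) < a then
      (m : ℝ) ^ (-a + (1 - 1 / p)) * (Real.log m) ^ (((d : ℝ) - 1) * (a + b - 2 * (1 - 1 / p)))
    else if a = 2 * (1 - 1 / p) then
      (m : ℝ) ^ (-a + (1 - 1 / p)) * (Real.log m) ^ (((d : ℝ) - 1) * b) * Real.log (Real.log m)
    else
      (m : ℝ) ^ (-a + (1 - 1 / p)) * (Real.log m) ^ (((d : ℝ) - 1) * b)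
  else
    if 1 < a then
      (m : ℝ) ^ (-a + 1 / 2) * (Real.log m) ^ (((d : ℝ) - 1) * (a + b - 1))
    else if a = 1 then
      (m : ℝ) ^ (-(1 / 2) : ℝ) * (Real.log m) ^ (((d : ℝ) - 1) * b + 1)
    else
      (m : ℝ) ^ (-((a - (1 - 1 / p)) * p / 2)) * (Real.log m) ^ (((d : ℝ) - 1) * b)

section bridge

open Pool.Agent.Helper935.MT

variable {d : ℕ}

lemma floor_pow (s : ℕ) : ⌊(2 : ℝ) ^ ((s : ℝ) - 1)⌋ = if s = 0 then 0 else (2 : ℤ) ^ (s - 1) := by
  rcases Nat.eq_zero_or_pos s with h | h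
  · subst h
    rw [if_pos rfl, Int.floor_eq_zero_iff]
    constructor
    · positivity
    · rw [Nat.cast_zero, zero_sub, Real.rpow_neg_one]; norm_num
  · rw [if_neg (by omega)]
    obtain ⟨t, rfl⟩ : ∃ t, s = t + 1 := ⟨s - 1, by omega⟩
    have h1 : (((t + 1 : ℕ) : ℝ) - 1) = (t : ℕ) := by push_cast; ring
    rw [h1, Real.rpow_natCast, Nat.add_sub_cancel]
    have h2 : ((2 : ℝ) ^ t) = (((2 : ℤ) ^ t : ℤ) : ℝ) := by push_cast; ring
    rw [h2, Int.floor_intCast]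

lemma mem_rho1 (s : ℕ) (k : ℤ) :
    (k ∈ (Finset.Ioo (-((2 : ℤ) ^ s)) ((2 : ℤ) ^ s)).filter fun k => ⌊(2 : ℝ) ^ ((s : ℝ) - 1)⌋ ≤ |k|) ↔
      lev k = s := by
  rw [Finset.mem_filter, Finset.mem_Ioo, ← abs_lt, floor_pow]
  unfold lev
  have hk : |k| = (k.natAbs : ℤ) := Int.abs_eq_natAbs k
  rw [hk]
  have e1 : ∀ t : ℕ, ((k.natAbs : ℤ) < (2 : ℤ) ^ t) ↔ Nat.size k.natAbs ≤ t := by
    intro t
    rw [Nat.size_le]
    exact_mod_cast Iff.rfl
  have e2 : ∀ t : ℕ, ((2 : ℤ) ^ t ≤ (k.natAbs : ℤ)) ↔ t < Nat.size k.natAbs := by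
    intro t
    rw [Nat.lt_size]
    exact_mod_cast Iff.rfl
  rw [e1]
  by_cases hs : s = 0
  · subst hs
    rw [if_pos rfl]
    constructor
    · intro h; exact Nat.le_zero.1 h.1
    · intro h; exact ⟨h.le, by positivity⟩
  · rw [if_neg hs, e2]
    constructor
    · intro h; omega
    · intro h; constructor <;> omega

lemma mem_rho (s : Fin d → ℕ) (k : Fin d → ℤ) : k ∈ rho s ↔ ∀ j, lev (k j) = s j := by
  unfold rho
  rw [Fintype.mem_piFinset]
  exact forall_congr' fun j => mem_rho1 (s j) (k j)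

lemma sum_layers (l : ℕ) (g : (Fin d → ℤ) → ℂ) :
    ∑ s ∈ Finset.piAntidiag Finset.univ l, ∑ k ∈ rho s, g k = ∑ k ∈ layer d l, g k := by
  rw [← Finset.sum_fiberwise_of_maps_to (s := layer d l) (t := Finset.piAntidiag Finset.univ l)
    (g := fun k j => lev (k j))]
  · apply Finset.sum_congr rfl
    intro s hs
    rw [Finset.mem_piAntidiag] at hs
    apply Finset.sum_congr _ (fun _ _ => rfl)
    ext k
    rw [mem_rho, Finset.mem_filter, mem_layer]
    constructor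
    · intro h
      refine ⟨?_, funext h⟩
      unfold tlev
      rw [← hs.1]
      exact Finset.sum_congr rfl (fun j _ => h j)
    · intro h j
      exact congrFun h.2 j
  · intro k hk
    rw [mem_layer] at hk
    rw [Finset.mem_piAntidiag]
    exact ⟨hk, fun _ _ => Finset.mem_univ _⟩

lemma layerPiece_eq (l : ℕ) (f : Tor d → ℂ) : layerPiece l f = fl f l := by
  funext x
  unfold layerPiece deltaPiece
  exact sum_layers l (fun k => coeff f k * expo k x)

lemma mem_classW {a b : ℝ} {f : Tor d → ℂ} : f ∈ classW d a b ↔ InW a (((d : ℝ) - 1) * b) f := by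
  unfold classW InW
  rw [Set.mem_ofPred_eq]
  simp only [layerPiece_eq]
  exact Iff.rfl

lemma finish {p a b A B D : ℝ} (hp : 0 < p) (hu : UpS d p a (((d : ℝ) - 1) * b) A B D)
    (hl : LoS d p a (((d : ℝ) - 1) * b) A B D) :
    ∃ (c C : ℝ) (m₀ : ℕ), 0 < c ∧ 0 < C ∧ ∀ m : ℕ, m₀ ≤ m →
      ENNReal.ofReal (c * Ft A B D m) ≤ sigmaClass d m p a b ∧
        sigmaClass d m p a b ≤ ENNReal.ofReal (C * Ft A B D m) := by
  obtain ⟨C, m₁, hC, hup⟩ := trans_up hu
  obtain ⟨c, m₂, hc, hlo⟩ := trans_lo hl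
  refine ⟨c, C, max m₁ m₂, hc, hC, fun m hm => ⟨?_, ?_⟩⟩
  · obtain ⟨f, hf1, hf2, hf3⟩ := hlo m ((le_max_right _ _).trans hm)
    refine le_trans ?_ (le_iSup₂_of_le f (mem_classW.2 hf2) le_rfl)
    refine le_iInf fun K => le_iInf fun hK => le_iInf fun cc => ?_
    have hrep : Rep (m : ℝ) (tp K cc) := (rep_tp K cc).mono (by exact_mod_cast hK)
    have h1 := hf3 _ hrep
    have h2 : eLpNorm (fun x => f x - ∑ k ∈ K, cc k * expo k x) (ENNReal.ofReal p) (normMeas d) =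
        ENNReal.ofReal (Np p (fun x => f x - tp K cc x)) := eLpNorm_eq hp (hf1.sub hrep.BC)
    rw [h2]
    exact ENNReal.ofReal_le_ofReal h1
  · refine iSup₂_le fun f hf => ?_
    obtain ⟨G, ⟨K, cc, hK, hG⟩, hG2⟩ := hup m ((le_max_left _ _).trans hm) f (mem_classW.1 hf)
    refine le_trans (iInf_le_of_le K (iInf_le_of_le (by exact_mod_cast hK) (iInf_le_of_le cc le_rfl))) ?_
    have h1 : (fun x => f x - ∑ k ∈ K, cc k * expo k x) = fun x => f x - G x := by
      funext x; rw [hG x]; rfl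
    rw [h1]
    exact hG2

end bridge

open Pool.Agent.Helper935.MT in
/-- The exact order of the best `m`-term trigonometric approximation of `W_1^{a,b}` in `L_p`. -/
theorem result (d : ℕ) (hd : 2 ≤ d) (p a b : ℝ) (hp : 1 < p) (ha : 1 - 1 / p < a) :
    ∃ (c C : ℝ) (m₀ : ℕ), 0 < c ∧ 0 < C ∧ ∀ m : ℕ, m₀ ≤ m →
      ENNReal.ofReal (c * phi d p a b m) ≤ sigmaClass d m p a b ∧
        sigmaClass d m p a b ≤ ENNReal.ofReal (C * phi d p a b m) := by
  have hp0 : 0 < p := by linarith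
  have hd0 : 0 < d := by omega
  have hdr : ((d - 1 : ℕ) : ℝ) = (d : ℝ) - 1 := by rw [Nat.cast_sub (by omega), Nat.cast_one]
  by_cases hp2 : p ≤ 2
  · set r : ℝ := p / (p - 1) with hr
    have hp1 : 0 < p - 1 := by linarith
    have hpr : p.HolderConjugate r := by
      rw [Real.holderConjugate_iff]
      refine ⟨hp, ?_⟩
      rw [hr, inv_div]; field_simp; ring
    have hr2 : 2 ≤ r := by rw [hr, le_div_iff₀ hp1]; linarith
    have h1r : 1 / r = 1 - 1 / p := by rw [hr, one_div_div]; field_simp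
    have h2r : 2 / r = 2 * (1 - 1 / p) := by rw [← h1r]; ring
    rcases lt_trichotomy (2 * (1 - 1 / p)) a with h | h | h
    · have hu := up1 hpr hr2 hd0 (((d : ℝ) - 1) * b) (a := a) (by rw [h2r]; exact h)
      have hl := lo1 hpr hr2 hd0 (((d : ℝ) - 1) * b) (a := a) (by rw [h2r]; exact h)
      obtain ⟨c, C, m₀, hc, hC, hm⟩ := finish hp0 hu hl
      refine ⟨c, C, m₀, hc, hC, fun m hmm => ?_⟩
      have e : Ft (a - 1 / r) (((d : ℝ) - 1) * b + (d - 1 : ℕ) * (a - 2 / r)) 0 m = phi d p a b m := by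
        unfold Ft phi
        rw [if_pos hp2, if_pos h, Real.rpow_zero, mul_one, h1r, h2r, hdr]
        congr 2 <;> ring
      rw [← e]; exact hm m hmm
    · have hu := up2 hpr hr2 hd0 (((d : ℝ) - 1) * b) (a := a) (by rw [h2r]; exact h.symm)
      have hl := lo2 hpr hr2 hd (((d : ℝ) - 1) * b) (a := a) (by rw [h2r]; exact h.symm)
      obtain ⟨c, C, m₀, hc, hC, hm⟩ := finish hp0 hu hl
      refine ⟨c, C, m₀, hc, hC, fun m hmm => ?_⟩
      have e : Ft (a - 1 / r) (((d : ℝ) - 1) * b) 1 m = phi d p a b m := by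
        unfold Ft phi
        rw [if_pos hp2, if_neg (by linarith), if_pos h.symm, Real.rpow_one, h1r]
        congr 3; ring
      rw [← e]; exact hm m hmm
    · have hu := up3 hpr hr2 hd0 (((d : ℝ) - 1) * b) (a := a) (by rw [h1r]; exact ha) (by rw [h2r]; exact h)
      have hl := lo3 hpr hr2 hd0 a (((d : ℝ) - 1) * b)
      obtain ⟨c, C, m₀, hc, hC, hm⟩ := finish hp0 hu hl
      refine ⟨c, C, m₀, hc, hC, fun m hmm => ?_⟩
      have e : Ft (a - 1 / r) (((d : ℝ) - 1) * b) 0 m = phi d p a b m := by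
        unfold Ft phi
        rw [if_pos hp2, if_neg (by linarith), if_neg (by linarith), Real.rpow_zero, mul_one, h1r]
        congr 2; ring
      rw [← e]; exact hm m hmm
  · have hp2' : 2 < p := not_le.1 hp2
    rcases lt_trichotomy 1 a with h | h | h
    · have hu := upA hp2'.le hd0 (((d : ℝ) - 1) * b) h
      have hl := loA hp2'.le hd0 (((d : ℝ) - 1) * b) h
      obtain ⟨c, C, m₀, hc, hC, hm⟩ := finish hp0 hu hl
      refine ⟨c, C, m₀, hc, hC, fun m hmm => ?_⟩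
      have e : Ft (a - 1 / 2) (((d : ℝ) - 1) * b + (d - 1 : ℕ) * (a - 1)) 0 m = phi d p a b m := by
        unfold Ft phi
        rw [if_neg hp2, if_pos h, Real.rpow_zero, mul_one, hdr]
        congr 2 <;> ring
      rw [← e]; exact hm m hmm
    · subst h
      have hu := upB hp2'.le hd0 (((d : ℝ) - 1) * b)
      have hl := loB hp2' hd0 (((d : ℝ) - 1) * b)
      obtain ⟨c, C, m₀, hc, hC, hm⟩ := finish hp0 hu hl
      refine ⟨c, C, m₀, hc, hC, fun m hmm => ?_⟩
      have e : Ft (1 / 2) (((d : ℝ) - 1) * b + 1) 0 m = phi d p 1 b m := by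
        unfold Ft phi
        rw [if_neg hp2, if_neg (lt_irrefl _), if_pos rfl, Real.rpow_zero, mul_one]
      rw [← e]; exact hm m hmm
    · have hu := upC hp2'.le hd0 (((d : ℝ) - 1) * b) ha h
      have hl := loC hp2' hd0 (((d : ℝ) - 1) * b) h
      obtain ⟨c, C, m₀, hc, hC, hm⟩ := finish hp0 hu hl
      refine ⟨c, C, m₀, hc, hC, fun m hmm => ?_⟩
      have e : Ft ((a - (1 - 1 / p)) * (p / 2)) (((d : ℝ) - 1) * b) 0 m = phi d p a b m := by
        unfold Ft phi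
        rw [if_neg hp2, if_neg (by linarith), if_neg (by linarith), Real.rpow_zero, mul_one]
        congr 2; ring
      rw [← e]; exact hm m hmm

end Pool.Agent.Results.MP_33127d_an.MTermOrder
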